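import Mathlib
import Pool.Agent.H.MP_3ce754_lc.A

set_option autoImplicit false

namespace Pool.Agent.Results.MP_3ce754_lc.Yes

open Set Filter Topology Function Cardinal MeasureTheory Pool.Agent.H.MP_3ce754_lc

/-- the subset of the naturals with characteristic function `x` -/
def S (x : ℕ → Bool) : Set ℕ := {n | x n = true}

/-- the infinite subsets of the naturals, inside the Cantor space -/
def Inf : Set (ℕ → Bool) := {x | (S x).Infinite}

def AD (A : Set (ℕ → Bool)) : Prop := A ⊆ Inf ∧ ∀ x ∈ A, ∀ y ∈ A, x ≠ y → (S x ∩ S y).Finite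

def Mad (A : Set (ℕ → Bool)) : Prop := A.Infinite ∧ AD A ∧ ∀ B, AD B → A ⊆ B → B = A

/-- least number of a.d. sets of kind `P` (as subsets of the subspace `Inf`) with mad union -/
noncomputable def aa (P : Set Inf → Prop) : Cardinal.{0} :=
  sInf {κ | ∃ 𝒜 : Set (Set (ℕ → Bool)), (∀ B ∈ 𝒜, P (Subtype.val ⁻¹' B) ∧ AD B) ∧
    Mad (⋃₀ 𝒜) ∧ #𝒜 = κ}

def Dn (D : Set (Set ℕ)) : Prop := ∀ A : Set ℕ, A.Infinite → ∃ B ∈ D, (B \ A).Finite

def DO (D : Set (Set ℕ)) : Prop :=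
  (∀ B ∈ D, B.Infinite) ∧ Dn D ∧ ∀ B ∈ D, ∀ A : Set ℕ, A.Infinite → (A \ B).Finite → A ∈ D

/-- the distributivity number -/
noncomputable def hh : Cardinal.{0} :=
  sInf {κ | ∃ 𝒟 : Set (Set (Set ℕ)), (∀ D ∈ 𝒟, DO D) ∧ ¬ Dn ({A | A.Infinite} ∩ ⋂₀ 𝒟) ∧ #𝒟 = κ}

theorem ex_mad : ∃ A, Mad A := by
  let c : ℕ → ℕ → Bool := fun j n => decide (n.unpair.1 = j)
  have h : AD (range c) := ⟨range_subset_iff.2 fun j => (infinite_range_of_injective
    (f := Nat.pair j) fun _ _ h => (Nat.pair_eq_pair.1 h).2).mono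
      (range_subset_iff.2 fun k => by simp [S, c]), by
    rintro _ ⟨i, rfl⟩ _ ⟨j, rfl⟩ h
    refine finite_empty.subset fun n ⟨h1, h2⟩ => h ?_
    simp only [S, c, mem_ofPred_eq, decide_eq_true_eq] at h1 h2
    rw [← h1, h2]⟩
  obtain ⟨A, a1, a2⟩ := zorn_subset_nonempty {A | AD A} (fun 𝒞 c1 c2 _ => ⟨⋃₀ 𝒞,
    ⟨sUnion_subset fun B hB => (c1 hB).1, fun x ⟨B, b1, b2⟩ y ⟨D, d1, d2⟩ =>
      (c2.total b1 d1).elim (fun h => (c1 d1).2 x (h b2) y d2) fun h => (c1 b1).2 x b2 y (h d2)⟩,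
    fun _ => subset_sUnion_of_mem⟩) _ h
  exact ⟨A, (infinite_range_of_injective (f := c) fun i j h => by
    simpa [c] using congrFun h (Nat.pair i 0)).mono a1, a2.prop,
    fun B b1 b2 => (a2.eq_of_subset b1 b2).symm⟩

theorem key {𝒜 : Set (Set (ℕ → Bool))} (h1 : ∀ B ∈ 𝒜, AnalyticSet B) (h2 : Mad (⋃₀ 𝒜)) :
    hh ≤ #𝒜 := by
  classical
  let a := h2.1.natEmbedding
  have a1 : ∀ i, {n | n ∈ S (a i) ∧ ∀ l < i, n ∉ S (a l)}.Infinite := fun i =>
    ((h2.2.1.1 (a i).2).sdiff ((finite_Iio i).biUnion fun l hl => h2.2.1.2 _ (a i).2 _ (a l).2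
      fun h => absurd (a.injective (Subtype.ext h)) (ne_of_gt hl))).mono
      fun n hn => ⟨hn.1, fun l hl h => hn.2 (mem_biUnion hl ⟨hn.1, h⟩)⟩
  let e : ℕ → ℕ → ℕ := fun i => Nat.nth fun n => n ∈ S (a i) ∧ ∀ l < i, n ∉ S (a l)
  have e1 : ∀ i j, e i j ∈ S (a i) ∧ ∀ l < i, e i j ∉ S (a l) := fun i => Nat.nth_mem_of_infinite (a1 i)
  have e2 : ∀ i, Tendsto (e i) atTop atTop := fun i => (Nat.nth_strictMono (a1 i)).tendsto_atTop
  let D : Set (ℕ → Bool) → Set (Set ℕ) := fun B => {W | W.Infinite ∧ ∀ z, StrictMono z →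
    (∀ᶠ n in atTop, z n ∈ W) → ∀ y ∈ B, {n | y (e (z n) (z (n + 1))) = true}.Finite}
  refine le_trans (csInf_le' ?_) (mk_image_le (f := D))
  refine ⟨D '' 𝒜, forall_mem_image.2 fun B hB => ⟨fun _ h => h.1, fun W hW => ?_,
    fun V hV W w1 w2 => ⟨w1, fun z z1 z2 => hV.2 z z1 ?_⟩⟩, fun h => ?_, rfl⟩
  · have := h1 B hB
    rw [AnalyticSet] at this
    rcases this with rfl | ⟨g, hg, rfl⟩
    · exact ⟨W, ⟨hW, fun _ _ _ _ h => h.elim⟩, by simp⟩
    have : (atTop ⊓ 𝓟 W).NeBot :=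
      frequently_mem_iff_neBot.1 (Nat.frequently_atTop_iff_infinite.2 hW)
    have u1 := (Ultrafilter.of_le (atTop ⊓ 𝓟 W)).trans inf_le_left
    have hA : ∀ x, g x ∈ ⋃₀ 𝒜 := fun x => ⟨_, hB, x, rfl⟩
    obtain ⟨T, t1, t2⟩ := bad (e := e) hg (fun i m => u1 ((e2 i).eventually_gt_atTop m))
      (fun x y => h2.2.1.2 _ (hA x) _ (hA y)) fun x => u1 (by
        have : {i | (a i).1 = g x}.Finite := Set.Subsingleton.finite fun i hi j hj =>
          a.injective (Subtype.ext (hi.trans hj.symm))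
        refine mem_of_superset (Nat.cofinite_eq_atTop ▸ this.compl_mem_cofinite) fun i hi => u1 ?_
        obtain ⟨b, hb⟩ := (h2.2.1.2 _ (a i).2 _ (hA x) hi).bddAbove
        exact ((e2 i).eventually_gt_atTop b).mono fun j hj => Bool.eq_false_iff.2 fun h =>
          hj.not_ge (hb ⟨(e1 i j).1, h⟩))
    obtain ⟨V, v1, v2, v3⟩ := cube u1 t1 (((Ultrafilter.of_le (atTop ⊓ 𝓟 W)).trans inf_le_right)
      (mem_principal_self W))
    refine ⟨V, ⟨v2, fun z z1 z2 => forall_mem_range.2 fun x => ?_⟩, by simp [sdiff_eq_empty.2 v1]⟩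
    obtain ⟨N, hN⟩ := eventually_atTop.1 z2
    refine ((finite_Iio N).union ((t2 (fun n => z (n + N)) (v3 _ (z1.comp
      (strictMono_id.add_const N)) fun n => hN _ (N.le_add_left n)) x rfl).image
        (· + N))).subset fun n hn => (lt_or_ge n N).imp id fun h => ⟨n - N, ?_, by simp [h]⟩
    simpa [Nat.sub_add_cancel h, show n - N + 1 + N = n + 1 by omega] using hn
  · obtain ⟨b, hb⟩ := w2.bddAbove
    filter_upwards [z2, z1.tendsto_atTop.eventually_gt_atTop b] with n h3 h4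
    exact by_contra fun h => h4.not_ge (hb ⟨h3, h⟩)
  · obtain ⟨W, ⟨w1, w2⟩, -⟩ := h _ infinite_univ
    have z1 := Nat.nth_strictMono w1
    set z := Nat.nth (· ∈ W)
    have k : ∀ y ∈ ⋃₀ 𝒜, {n | y (e (z n) (z (n + 1))) = true}.Finite := fun y ⟨B, b1, b2⟩ =>
      (w2 _ ⟨B, b1, rfl⟩).2 z z1 (Eventually.of_forall (Nat.nth_mem_of_infinite w1)) y b2
    let w : ℕ → Bool := fun m => decide (∃ n, e (z n) (z (n + 1)) = m)
    have k2 : ∀ y ∈ ⋃₀ 𝒜, (S w ∩ S y).Finite := fun y hy =>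
      ((k y hy).image fun n => e (z n) (z (n + 1))).subset fun m ⟨m1, m2⟩ => by
        obtain ⟨n, rfl⟩ := of_decide_eq_true m1
        exact ⟨n, m2, rfl⟩
    have k3 : w ∈ Inf := (infinite_range_of_injective (f := fun n => e (z n) (z (n + 1)))
      (Injective.of_lt_imp_ne fun m n h h' => (e1 (z n) _).2 _ (z1 h) (h' ▸ (e1 _ _).1))).mono
        (range_subset_iff.2 fun n => decide_eq_true ⟨n, rfl⟩)
    have := h2.2.2 (insert w _) ⟨insert_subset k3 h2.2.1.1, by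
      rintro x (rfl | hx) y (rfl | hy) h
      exacts [(h rfl).elim, k2 y hy, inter_comm _ _ ▸ k2 x hx, h2.2.1.2 x hx y hy h]⟩
      (subset_insert _ _)
    exact k3 (by simpa using k2 w (this.le (mem_insert _ _)))

theorem bor {P : Set Inf → Prop} (h1 : ∀ B, P B → MeasurableSet B)
    (h2 : ∀ x, P (Subtype.val ⁻¹' {x})) : hh ≤ aa P := by
  obtain ⟨A, hA⟩ := ex_mad
  refine le_csInf ⟨_, singleton '' A, forall_mem_image.2 fun x hx => ⟨h2 x,
    singleton_subset_iff.2 (hA.2.1.1 hx), fun _ h _ h' e => (e (h.trans h'.symm)).elim⟩,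
    by simpa [sUnion_image] using hA, rfl⟩ ?_
  rintro _ ⟨𝒜, a1, a2, rfl⟩
  have : PolishSpace Bool := ⟨⟩
  refine key (fun B hB => MeasurableSet.analyticSet ?_) a2
  have h : MeasurableSet Inf := by
    simp only [Inf, S, ← Nat.frequently_atTop_iff_infinite, frequently_atTop]
    measurability
  simpa [inter_eq_right.2 (a1 B hB).2.1] using h.subtype_image (h1 _ (a1 B hB).1)

theorem result : hh ≤ aa IsClosed ∧ hh ≤ aa (@MeasurableSet _ (borel Inf)) :=
  ⟨bor (fun _ h => h.measurableSet) fun _ => isClosed_singleton.preimage continuous_subtype_val,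
    bor (fun _ h => by rwa [← BorelSpace.measurable_eq] at h) fun _ => by
      rw [← BorelSpace.measurable_eq]
      exact (isClosed_singleton.preimage continuous_subtype_val).measurableSet⟩

end Pool.Agent.Results.MP_3ce754_lc.Yes
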